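import Pool.Agent.Lib.MP_8b9ec4_lc.Solv

/-!
# Naively Haar null sets do not form a sigma-ideal: solvable groups and central sections

Let `G` be a Polish group which is uncountable and solvable (for example abelian), or which has a
closed normal subgroup `N` such that `G ⧸ N` has an open subgroup with uncountable centre.  Then
`G` is the union of countably many naively Haar null sets, so that the naively Haar null subsets
of `G` do not form a sigma-ideal.  The proof is in ZFC.
-/

namespace Pool.Agent.Results.MP_8b9ec4_lc.CentralSection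

open Pool.Agent.MP8b9

theorem result {G : Type*} [Group G] [TopologicalSpace G] [IsTopologicalGroup G] [PolishSpace G]
    [MeasurableSpace G] [BorelSpace G]
    (hG : (Uncountable G ∧ Group.IsSolvable G) ∨
      ∃ (N : Subgroup G) (_ : N.Normal), IsClosed (N : Set G) ∧
        ∃ U : Subgroup (G ⧸ N), IsOpen (U : Set (G ⧸ N)) ∧ ¬ Countable (Subgroup.center U)) :
    ∃ X : ℕ → Set G, (∀ n, NaivelyHaarNull (X n)) ∧ (⋃ n, X n) = Set.univ ∧
      ¬ NaivelyHaarNull (⋃ n, X n) := by
  have h : ∃ (N : Subgroup G) (_ : N.Normal), IsClosed (N : Set G) ∧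
      ∃ U : Subgroup (G ⧸ N), IsOpen (U : Set (G ⧸ N)) ∧ ¬ Countable (Subgroup.center U) := by
    rcases hG with ⟨h1, h2⟩ | h
    · exact exists_section_of_solvable h1 h2
    · exact h
  obtain ⟨N, hN, hNc, U, hU, hZ⟩ := h
  exact (CantorCover.of_section N hNc U hU hZ).exists_union not_naivelyHaarNull_univ

end Pool.Agent.Results.MP_8b9ec4_lc.CentralSection
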