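import Pool.Agent.Lib.MP_8b9ec4_lc.PG.Main
import Pool.Agent.Lib.MP_8b9ec4_lc.RM.Main

/-!
# Partitions of Polish groups into two naively Haar null sets: Q2 is independent of ZFC

* There is a countable transitive model `N` of ZFC such that in `N` every uncountable Polish group
  can be partitioned into two naively Haar null sets.
* There is a countable transitive model `N` of ZFC such that in `N` the Cantor group `(ℤ/2)^ω`
  cannot be partitioned into two naively Haar null sets.
-/

namespace Pool.Agent.Results.MP_8b9ec4_lc.IndependentQ2

theorem result :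
    (∃ N : Set ZFSet.{0}, N.Countable ∧ SymExt.IsZFC N ∧ SymExt.PG.AllPartition N) ∧
    ∃ N : Set ZFSet.{0}, N.Countable ∧ SymExt.IsZFC N ∧ SymExt.RM.NoPartition N :=
  ⟨SymExt.PG.main, SymExt.RM.main⟩

end Pool.Agent.Results.MP_8b9ec4_lc.IndependentQ2
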