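import Pool.Agent.Lib.MP_8b9ec4_lc.Padic

/-!
# Naively Haar null sets do not form a sigma-ideal: groups containing the `p`-adic integers

Let `G` be a Polish group with a closed normal subgroup `N` (for example the trivial one) such
that for some prime `p` there is a continuous injective homomorphism from the additive group of
the `p`-adic integers to `G ⧸ N`.  Then `G` is the union of countably many naively Haar null
sets.  The proof is in ZFC.
-/

namespace Pool.Agent.Results.MP_8b9ec4_lc.PadicSubgroup

open Pool.Agent.MP8b9

theorem result {G : Type*} [Group G] [TopologicalSpace G] [IsTopologicalGroup G] [PolishSpace G]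
    [MeasurableSpace G] [BorelSpace G] (N : Subgroup G) [N.Normal] (hN : IsClosed (N : Set G))
    (p : ℕ) [Fact p.Prime] (f : Multiplicative ℤ_[p] →* G ⧸ N) (hf : Continuous f)
    (hinj : Function.Injective f) :
    ∃ X : ℕ → Set G, (∀ n, NaivelyHaarNull (X n)) ∧ (⋃ n, X n) = Set.univ ∧
      ¬ NaivelyHaarNull (⋃ n, X n) := by
  have : IsClosed (N : Set G) := hN
  have hq : IsOpenQuotientMap (QuotientGroup.mk' N) := QuotientGroup.isOpenQuotientMap_mk
  exact (CantorCover.of_quotient (QuotientGroup.mk' N) hq
    (CantorCover.of_padic f hf hinj)).exists_union not_naivelyHaarNull_univ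

end Pool.Agent.Results.MP_8b9ec4_lc.PadicSubgroup
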